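import Mathlib
import Pool.Agent.Lib_helper80.CW.Step2

/-!
# CW (MP_931ca8_lc): sequences of cardinals, and small unions
-/

set_option autoImplicit false
set_option linter.unusedSectionVars false
set_option linter.deprecated false

open Cardinal Ordinal Set

namespace Pool.Agent.CW

open Pool.Agent.H68.OG Pool.Agent.CV

theorem iUnion_lt_of_cof {V ι : Type} {κ : Cardinal.{0}} (hκ : ℵ₀ ≤ κ) (hι : #ι < κ.ord.cof)
    (hικ : #ι < κ) (Z : ι → Set V) (hZ : ∀ i, #(Z i) < κ) : #(⋃ i, Z i) < κ := by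
  refine (Cardinal.mk_iUnion_le Z).trans_lt ?_
  exact Cardinal.mul_lt_of_lt hκ hικ (Cardinal.iSup_lt_of_lt_cof_ord hι hZ)

theorem not_regular_of_pow {κ : Cardinal.{0}} (hκ0 : ℵ₀ < κ)
    (hpow : ∀ μ < κ, μ ^ κ.ord.cof < κ) : ¬ κ.IsRegular := by
  intro h
  have h1 := hpow 2 ((Cardinal.ofNat_lt_aleph0 (n := 2)).trans hκ0)
  rw [h.cof_eq] at h1
  exact absurd (h1.trans (Cardinal.cantor κ)) (lt_irrefl _)

theorem cof_lt_self {κ : Cardinal.{0}} (hκ0 : ℵ₀ < κ) (h : ¬ κ.IsRegular) :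
    κ.ord.cof < κ := by
  refine lt_of_le_of_ne (Ordinal.cof_ord_le κ) ?_
  intro h1
  exact h ⟨hκ0.le, h1.ge⟩

theorem aleph0_le_cof' {κ : Cardinal.{0}} (hκ0 : ℵ₀ < κ) : ℵ₀ ≤ κ.ord.cof := by
  rw [Ordinal.aleph0_le_cof_iff, Ordinal.one_lt_cof_iff]
  exact Cardinal.isSuccLimit_ord hκ0.le

/-- A nondecreasing cofinal sequence of cardinals of length `cof κ`, with values at least
`cof κ`. -/
theorem exists_seq2 {κ : Cardinal.{0}} (hκ0 : ℵ₀ < κ) (hreg : ¬ κ.IsRegular) :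
    ∃ k : κ.ord.cof.ord.ToType → Cardinal.{0}, Monotone k ∧ (∀ i, κ.ord.cof ≤ k i) ∧
      (∀ i, k i < κ) ∧ ∀ μ < κ, ∃ i, μ ≤ k i := by
  obtain ⟨S, hS, hSc⟩ := Order.exists_cof_eq κ.ord.ToType
  rw [Ordinal.cof_toType] at hSc
  have h1 : #κ.ord.cof.ord.ToType = #S := by
    rw [Cardinal.mk_toType, Cardinal.card_ord, hSc]
  obtain ⟨e⟩ := Cardinal.eq.1 h1
  let a : κ.ord.cof.ord.ToType → Cardinal.{0} := fun i =>
    (Ordinal.ToType.mk.symm (e i).1).1.card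
  have ha : ∀ i, a i < κ := fun i => Cardinal.lt_ord.1 (Ordinal.ToType.mk.symm (e i).1).2
  have hcofκ := cof_lt_self hκ0 hreg
  let k : κ.ord.cof.ord.ToType → Cardinal.{0} := fun i =>
    max κ.ord.cof (⨆ j : {j // j ≤ i}, a j.1)
  have hini : ∀ i : κ.ord.cof.ord.ToType, #{j // j ≤ i} < κ.ord.cof := by
    intro i
    have h2 : {j : κ.ord.cof.ord.ToType | j ≤ i} ⊆ Iio i ∪ {i} := by
      intro j hj
      rcases lt_or_eq_of_le (show j ≤ i from hj) with h | h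
      · exact Or.inl h
      · exact Or.inr h
    refine (Cardinal.mk_le_mk_of_subset h2).trans_lt ?_
    refine (Cardinal.mk_union_le _ _).trans_lt ?_
    refine Cardinal.add_lt_of_lt (aleph0_le_cof' hκ0) (Cardinal.mk_Iio_toType_ord_lt i) ?_
    rw [Cardinal.mk_singleton]
    exact (Cardinal.one_lt_aleph0).trans_le (aleph0_le_cof' hκ0)
  have hbdd : ∀ i, BddAbove (Set.range fun j : {j // j ≤ i} => a j.1) := fun i =>
    Cardinal.bddAbove_range _
  refine ⟨k, ?_, fun i => le_max_left _ _, ?_, ?_⟩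
  · intro i i' h
    refine max_le_max le_rfl ?_
    refine ciSup_le' fun j => ?_
    exact le_ciSup (hbdd i') ⟨j.1, j.2.trans h⟩
  · intro i
    exact max_lt hcofκ (Cardinal.iSup_lt_of_lt_cof_ord (hini i) fun j => ha j.1)
  · intro μ hμ
    have h1 : μ.ord < κ.ord := Cardinal.ord_lt_ord.2 hμ
    obtain ⟨y, hy, hay⟩ := hS (Ordinal.ToType.mk ⟨μ.ord, h1⟩)
    have h2 := (Ordinal.ToType.mk (o := κ.ord)).symm.monotone hay
    simp only [OrderIso.symm_apply_apply] at h2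
    refine ⟨e.symm ⟨y, hy⟩, ?_⟩
    have h3 : μ ≤ a (e.symm ⟨y, hy⟩) := by
      have h4 := Ordinal.card_le_card (show μ.ord ≤
          (Ordinal.ToType.mk.symm (e (e.symm ⟨y, hy⟩)).1).1 by
        rw [Equiv.apply_symm_apply]
        exact h2)
      rwa [Cardinal.card_ord] at h4
    refine h3.trans ((le_ciSup (hbdd _) (⟨_, le_rfl⟩ : {j // j ≤ e.symm ⟨y, hy⟩})).trans ?_)
    exact le_max_right _ _

end Pool.Agent.CW
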