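import Mathlib
import Pool.Agent.Lib_helper80.CW.Seq

/-!
# CW (MP_931ca8_lc): the construction in `cof κ` stages, with thinning at every stage
-/

set_option autoImplicit false
set_option linter.unusedSectionVars false
set_option linter.deprecated false

open Cardinal Ordinal Set

namespace Pool.Agent.CW

open Pool.Agent.H68.OG Pool.Agent.CV

/-- The record of one stage: the new points `X` and their colours, the choice `g` made for the
earlier stages, the tasks `R` after the stage. -/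
structure St (V L I W : Type) : Type where
  X : Set V
  col : V → I → W
  g : I → W
  R : Set (Set V × L)

section Defs

variable {V L I W : Type} [LinearOrder I]

/-- The point `x` of stage `j` was kept at all stages before `ζ`. -/
def Surv (h : I → St V L I W) (ζ j : I) (x : V) : Prop :=
  x ∈ (h j).X ∧ ∀ i, j < i → i < ζ → (h j).col x i = (h i).g j

/-- The points which are kept at stage `ζ`, if the choice at stage `ζ` is `g`. -/
def Sv (h : I → St V L I W) (ζ : I) (g : I → W) : Set V :=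
  {x | ∃ j, j < ζ ∧ Surv h ζ j x ∧ (h j).col x ζ = g j}

/-- The tasks before stage `ζ`. -/
def Rb (R₀ : Set (Set V × L)) (h : I → St V L I W) (ζ : I) : Set (Set V × L) :=
  R₀ ∪ ⋃ j : {j // j < ζ}, (h j.1).R

theorem sv_congr {h h' : I → St V L I W} {ζ : I} (hh : ∀ d < ζ, h d = h' d) (g : I → W) :
    Sv h ζ g = Sv h' ζ g := by
  have key : ∀ h h' : I → St V L I W, (∀ d < ζ, h d = h' d) → Sv h ζ g ⊆ Sv h' ζ g := by
    rintro h h' hh x ⟨j, hj, ⟨hx, hs⟩, hc⟩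
    refine ⟨j, hj, ⟨?_, fun i h1 h2 => ?_⟩, ?_⟩
    · rw [← hh j hj]
      exact hx
    · rw [← hh j hj, ← hh i h2]
      exact hs i h1 h2
    · rw [← hh j hj]
      exact hc
  exact Set.Subset.antisymm (key h h' hh) (key h' h fun d hd => (hh d hd).symm)

theorem rb_congr {R₀ : Set (Set V × L)} {h h' : I → St V L I W} {ζ : I}
    (hh : ∀ d < ζ, h d = h' d) : Rb R₀ h ζ = Rb R₀ h' ζ := by
  unfold Rb
  congr 1
  exact Set.iUnion_congr fun j => by rw [hh j.1 j.2]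

variable [LinearOrder V] [WellFoundedLT V] [Nonempty V]

/-- The record `y` is a correct stage `ζ` after the stages `h`. -/
structure Good (f : V → Finset V) (o : L → Ordinal.{0}) (t : Ordinal.{0}) (A : Set V)
    (R₀ : Set (Set V × L)) (k K : I → Cardinal.{0}) (P : I → Set W) (ζ : I)
    (h : I → St V L I W) (y : St V L I W) : Prop where
  gP : ∀ j, y.g j ∈ P j
  sub : y.X ⊆ Clr f A (Sv h ζ y.g)
  card : #y.X ≤ K ζ
  free : ∀ x ∈ y.X, ∀ x' ∈ y.X, x ≠ x' → x' ∉ f x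
  pts : ∀ p ∈ Rb R₀ h ζ, o p.2 = t → ∀ q : I → W, (∀ i, q i ∈ P ζ) →
    K ζ ≤ #{x : V | x ∈ y.X ∧ x ∈ p.1 ∧ y.col x = q}
  Rsub : Rb R₀ h ζ ⊆ y.R
  Rcard : #y.R ≤ k ζ
  Rt : ∀ p ∈ y.R, t ≤ o p.2
  alive : ∀ p ∈ y.R, TG (Clr f A (Sv h ζ y.g ∪ y.X) ∩ p.1) (ω ^ o p.2)
  exp : ∀ p ∈ Rb R₀ h ζ, Expd V t (o p.2) (k ζ) → ∃ (ι : Type) (q : ι → Set V × L),
    (∀ i, q i ∈ y.R) ∧ (∀ i, o (q i).2 < o p.2) ∧
    ∀ Y : Set V, (∀ i, TG (Y ∩ (q i).1) (ω ^ o (q i).2)) → TG (Y ∩ p.1) (ω ^ o p.2)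

variable {f : V → Finset V} {o : L → Ordinal.{0}} {t : Ordinal.{0}} {A : Set V}
  {R₀ : Set (Set V × L)} {k K : I → Cardinal.{0}} {P : I → Set W}

theorem Good.congr {ζ : I} {h h' : I → St V L I W} {y : St V L I W}
    (hh : ∀ d < ζ, h d = h' d) (hG : Good f o t A R₀ k K P ζ h y) :
    Good f o t A R₀ k K P ζ h' y := by
  have h1 := fun g => sv_congr hh g
  have h2 : Rb R₀ h ζ = Rb R₀ h' ζ := rb_congr hh
  refine ⟨hG.gP, ?_, hG.card, hG.free, ?_, ?_, hG.Rcard, hG.Rt, ?_, ?_⟩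
  · rw [← h1]
    exact hG.sub
  · rw [← h2]
    exact hG.pts
  · rw [← h2]
    exact hG.Rsub
  · rw [← h1]
    exact hG.alive
  · rw [← h2]
    exact hG.exp

/-- Kept points of different stages are not related. -/
theorem unrel {ζ j j' : I} {h : I → St V L I W} {x x' : V}
    (hG : Good f o t A R₀ k K P j' h (h j')) (hjj : j < j') (hj' : j' < ζ)
    (hx : Surv h ζ j x) (hx' : x' ∈ (h j').X) : x ≠ x' ∧ x ∉ f x' ∧ x' ∉ f x := by
  have h1 := hG.sub hx'
  have h2 : x ∈ Sv h j' (h j').g :=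
    ⟨j, hjj, ⟨hx.1, fun i a b => hx.2 i a (b.trans hj')⟩, hx.2 j' hjj hj'⟩
  refine ⟨?_, fun h3 => h1.2.2.1 x h3 h2, h1.2.2.2 x h2⟩
  rintro rfl
  exact h1.2.1 h2

/-- Thinning: a choice which keeps all tasks alive. -/
theorem exists_thin {κ : Cardinal.{0}} (hκ0 : ℵ₀ < κ) (hf : Chn f)
    (ht : (ω : Ordinal.{0}) ^ t = κ.ord) (hP : ∀ j, k j < #(P j))
    (h0 : ∀ p ∈ R₀, TG (A ∩ p.1) (ω ^ o p.2)) {ζ : I} {h : I → St V L I W}
    (hG : ∀ d < ζ, Good f o t A R₀ k K P d h (h d))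
    (hsmall : #(⋃ j : {j // j < ζ}, (h j.1).X) < κ) :
    ∃ g : I → W, (∀ j, g j ∈ P j) ∧
      ∀ p ∈ Rb R₀ h ζ, TG (Clr f A (Sv h ζ g) ∩ p.1) (ω ^ o p.2) := by
  classical
  have hne : ∀ j, (P j).Nonempty := by
    intro j
    rw [Set.nonempty_iff_ne_empty]
    intro h1
    have h2 := hP j
    rw [h1, Cardinal.mk_emptyCollection] at h2
    exact absurd h2 not_lt_zero'
  have hW : Nonempty W := ⟨(hne ζ).some⟩
  have hch : ∀ p : Set V × L, ∃ g : I → W,
      (∃ g' : I → W, (∀ j, g' j ∈ P j) ∧ ¬ TG (Clr f A (Sv h ζ g') ∩ p.1) (ω ^ o p.2)) →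
      ((∀ j, g j ∈ P j) ∧ ¬ TG (Clr f A (Sv h ζ g) ∩ p.1) (ω ^ o p.2)) := by
    intro p
    by_cases hh : ∃ g' : I → W, (∀ j, g' j ∈ P j) ∧
        ¬ TG (Clr f A (Sv h ζ g') ∩ p.1) (ω ^ o p.2)
    · obtain ⟨g', h'⟩ := hh
      exact ⟨g', fun _ => h'⟩
    · exact ⟨fun _ => Classical.arbitrary W, fun h => absurd h hh⟩
  choose gb hgb using hch
  have hg : ∀ j, ∃ w ∈ P j, j < ζ → ∀ p ∈ (h j).R, w ≠ gb p j := by
    intro j
    by_cases hj : j < ζ
    · by_contra hcon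
      push Not at hcon
      have h1 : P j ⊆ (fun p => gb p j) '' (h j).R := by
        intro w hw
        obtain ⟨_, p, hp, he⟩ := hcon w hw
        exact ⟨p, hp, he.symm⟩
      have h2 := (Cardinal.mk_le_mk_of_subset h1).trans
        (Cardinal.mk_image_le.trans (hG j hj).Rcard)
      exact absurd h2 (not_le.2 (hP j))
    · exact ⟨(hne j).some, (hne j).some_mem, fun h => absurd h hj⟩
  choose g hgP hgne using hg
  refine ⟨g, hgP, fun p hp => ?_⟩
  by_contra hbad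
  obtain ⟨-, hbad'⟩ := hgb p ⟨g, hgP, hbad⟩
  by_cases hz : ∃ j₀, j₀ < ζ
  · have hex : ∃ j₀, j₀ < ζ ∧ p ∈ (h j₀).R := by
      rcases hp with hp | hp
      · obtain ⟨j₀, hj₀⟩ := hz
        exact ⟨j₀, hj₀, (hG j₀ hj₀).Rsub (Or.inl hp)⟩
      · obtain ⟨⟨j₀, hj₀⟩, hp'⟩ := Set.mem_iUnion.1 hp
        exact ⟨j₀, hj₀, hp'⟩
    obtain ⟨j₀, hj₀, hpR⟩ := hex
    have hG₀ := hG j₀ hj₀
    -- the task is known at all later stages
    have hlater : ∀ j, j₀ < j → j < ζ → p ∈ (h j).R := fun j h1 h2 =>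
      (hG j h2).Rsub (Or.inr (Set.mem_iUnion.2 ⟨⟨j₀, h1⟩, hpR⟩))
    set D : Set V := Clr f A (Sv h j₀ (h j₀).g ∪ (h j₀).X) ∩ p.1 with hD
    have hDT : TG D (ω ^ o p.2) := hG₀.alive p hpR
    let Z : (I → W) → Set V := fun G =>
      {x | ∃ j, j₀ < j ∧ j < ζ ∧ Surv h ζ j x ∧ (h j).col x ζ = G j}
    have hsub : ∀ G : I → W, Sv h ζ G ⊆ (Sv h j₀ (h j₀).g ∪ (h j₀).X) ∪ Z G := by
      rintro G x ⟨j, hj, hs, hc⟩
      rcases lt_trichotomy j j₀ with hlt | rfl | hgt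
      · exact Or.inl (Or.inl ⟨j, hlt, ⟨hs.1, fun i a b => hs.2 i a (b.trans hj₀)⟩,
          hs.2 j₀ hlt hj₀⟩)
      · exact Or.inl (Or.inr hs.1)
      · exact Or.inr ⟨j, hgt, hj, hs, hc⟩
    have key : ∀ G : I → W, TG (Off f D (Z G)) (ω ^ o p.2) →
        TG (Clr f A (Sv h ζ G) ∩ p.1) (ω ^ o p.2) := by
      intro G hO
      have hZ : #(Z G) < κ := by
        refine lt_of_le_of_lt (Cardinal.mk_le_mk_of_subset ?_) hsmall
        rintro x ⟨j, -, hj, hs, -⟩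
        exact Set.mem_iUnion.2 ⟨⟨j, hj⟩, hs.1⟩
      have hm : max ℵ₀ #(Z G) < κ := max_lt hκ0 hZ
      set W' : Set V := Z G ∪ ⋃ x : Z G, (f x.1 : Set V) with hW'
      have hWc : #W' < κ := by
        refine lt_of_le_of_lt ?_ hm
        refine (Cardinal.mk_union_le _ _).trans (Cardinal.add_le_of_le (le_max_left _ _)
          (le_max_right _ _) ?_)
        exact card_out_le (le_max_left _ _) f (Z G) (le_max_right _ _)
      have h2 : (ω : Ordinal.{0}) ^ o p.2 = κ.ord * ω ^ (o p.2 - t) := by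
        rw [← ht, ← Ordinal.opow_add, Ordinal.add_sub_cancel_of_le (hG₀.Rt p hpR)]
      rw [h2] at hO ⊢
      refine (TG.remove' hκ0.le hWc _ _ hO).mono ?_
      rintro v ⟨⟨⟨h3, h4⟩, h5⟩, h6⟩
      refine ⟨⟨h3.1, ?_, ?_, ?_⟩, h4⟩
      · intro hv
        rcases hsub G hv with h7 | h7
        · exact h3.2.1 h7
        · exact h6 (Or.inl h7)
      · intro u hu hv
        rcases hsub G hv with h7 | h7
        · exact h3.2.2.1 u hu h7
        · exact h5 u hu h7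
      · intro x hx hv
        rcases hsub G hx with h7 | h7
        · exact h3.2.2.2 x h7 hv
        · exact h6 (Or.inr (Set.mem_iUnion.2 ⟨⟨x, h7⟩, by simpa using hv⟩))
    have hrel : ∀ x ∈ Z g, ∀ x' ∈ Z (gb p), x ≠ x' ∧ x ∉ f x' ∧ x' ∉ f x := by
      rintro x ⟨j, hj1, hj2, hs, hc⟩ x' ⟨j', hj1', hj2', hs', hc'⟩
      rcases lt_trichotomy j j' with hlt | rfl | hgt
      · exact unrel (hG j' hj2') hlt hj2' hs hs'.1
      · have hne' : x ≠ x' := by
          rintro rfl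
          exact hgne j hj2 p (hlater j hj1 hj2) (hc.symm.trans hc')
        exact ⟨hne', (hG j hj2).free x' hs'.1 x hs.1 hne'.symm,
          (hG j hj2).free x hs.1 x' hs'.1 hne'⟩
      · obtain ⟨h1, h2, h3⟩ := unrel (hG j hj2) hgt hj2 hs' hs.1
        exact ⟨h1.symm, h3, h2⟩
    rcases related hf hDT (Z := Z g) (Z' := Z (gb p))
      (fun z hz hz' => (hrel z hz z hz').1 rfl)
      (fun z hz hz' => by
        obtain ⟨y, hy⟩ := Set.mem_iUnion.1 hz'
        exact (hrel z hz y.1 y.2).2.1 (by simpa using hy))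
      (fun z hz hz' => by
        obtain ⟨y, hy⟩ := Set.mem_iUnion.1 hz'
        exact (hrel y.1 y.2 z hz).2.2 (by simpa using hy)) with h1 | h1
    · exact hbad (key g h1)
    · exact hbad' (key (gb p) h1)
  · have hS : Sv h ζ g = ∅ := by
      rw [Set.eq_empty_iff_forall_notMem]
      rintro x ⟨j, hj, -⟩
      exact hz ⟨j, hj⟩
    have hp0 : p ∈ R₀ := by
      rcases hp with hp | hp
      · exact hp
      · obtain ⟨⟨j, hj⟩, -⟩ := Set.mem_iUnion.1 hp
        exact absurd ⟨j, hj⟩ hz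
    refine hbad ((h0 p hp0).mono ?_)
    rintro v ⟨h1, h2⟩
    rw [hS]
    exact ⟨⟨h1, Set.notMem_empty v, fun u _ => Set.notMem_empty u,
      fun x hx => absurd hx (Set.notMem_empty x)⟩, h2⟩

end Defs

end Pool.Agent.CW
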