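import Mathlib
import Pool.Agent.Lib_helper80.CW.Run

/-!
# CW (MP_931ca8_lc): free sets at singular cardinals `κ` with `μ ^ cof κ < κ` for `μ < κ`
-/

set_option autoImplicit false
set_option linter.unusedSectionVars false
set_option linter.deprecated false

open Cardinal Ordinal Set

namespace Pool.Agent.CW

open Pool.Agent.H68.OG Pool.Agent.CV

section

variable {V L I W : Type} [LinearOrder I] [LinearOrder V] [WellFoundedLT V] [Nonempty V]
variable {f : V → Finset V} {o : L → Ordinal.{0}} {t : Ordinal.{0}} {A : Set V}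
  {R₀ : Set (Set V × L)} {k K : I → Cardinal.{0}} {P : I → Set W}

theorem exists_stage {κ : Cardinal.{0}} (hκ0 : ℵ₀ < κ) (hf : Chn f)
    (ht : (ω : Ordinal.{0}) ^ t = κ.ord) (ho : ∀ l b, b ≤ o l → ∃ l', o l' = b)
    (hP : ∀ j, k j < #(P j)) (hk0 : ∀ j, ℵ₀ ≤ k j) (hkK : ∀ j, k j ≤ K j)
    (hKκ : ∀ j, Order.succ (K j) < κ) (hmono : Monotone k)
    (hini : ∀ ζ : I, #{j // j < ζ} ≤ k ζ) (hQ : ∀ j, #(I → P j) ≤ K j)
    (hR₀ : #R₀ ≤ ℵ₀) (hRt₀ : ∀ p ∈ R₀, t ≤ o p.2)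
    (h0 : ∀ p ∈ R₀, TG (A ∩ p.1) (ω ^ o p.2)) {ζ : I} {h : I → St V L I W}
    (hG : ∀ d < ζ, Good f o t A R₀ k K P d h (h d))
    (hsmall : #(⋃ j : {j // j < ζ}, (h j.1).X) < κ) :
    ∃ y, Good f o t A R₀ k K P ζ h y := by
  classical
  obtain ⟨g, hgP, hgT⟩ := exists_thin hκ0 hf ht hP h0 hG hsmall
  have hne : Nonempty (I → P ζ) := by
    refine ⟨fun _ => Classical.choice ?_⟩
    rw [← Cardinal.mk_ne_zero_iff]
    exact (zero_le.trans_lt (hP ζ)).ne'
  have hRc : #(Rb R₀ h ζ) ≤ k ζ := by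
    refine (Cardinal.mk_union_le _ _).trans (Cardinal.add_le_of_le (hk0 ζ)
      (hR₀.trans (hk0 ζ)) ?_)
    exact card_iUnion_le_of (hk0 ζ) (hini ζ) le_rfl _ fun j =>
      ((hG j.1 j.2).Rcard).trans (hmono j.2.le)
  have hRt : ∀ p ∈ Rb R₀ h ζ, t ≤ o p.2 := by
    rintro p (hp | hp)
    · exact hRt₀ p hp
    · obtain ⟨j, hj⟩ := Set.mem_iUnion.1 hp
      exact (hG j.1 j.2).Rt p hj
  obtain ⟨X, col, R', h1, h2, h3, h4, h5, h6, h7, h8, h9⟩ :=
    step2 (hk0 ζ) (hkK ζ) (hKκ ζ) hf ht o ho (hQ ζ) hRc hRt hgT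
  refine ⟨⟨X, fun x i => (col x i).1, g, R'⟩, hgP, h1, h2, h3, ?_, h5, h6, h7, ?_, h9⟩
  · intro p hp hpt q hq
    refine (h4 p hp hpt fun i => ⟨q i, hq i⟩).trans (Cardinal.mk_le_mk_of_subset ?_)
    rintro x ⟨hx1, hx2, hx3⟩
    refine ⟨hx1, hx2, ?_⟩
    funext i
    simp only [hx3]
  · intro p hp
    rw [← clr_clr]
    exact h8 p hp

theorem exists_run [WellFoundedLT I] {κ : Cardinal.{0}} (hκ0 : ℵ₀ < κ) (hf : Chn f)
    (ht : (ω : Ordinal.{0}) ^ t = κ.ord) (ho : ∀ l b, b ≤ o l → ∃ l', o l' = b)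
    (hP : ∀ j, k j < #(P j)) (hk0 : ∀ j, ℵ₀ ≤ k j) (hkK : ∀ j, k j ≤ K j)
    (hKκ : ∀ j, Order.succ (K j) < κ) (hmono : Monotone k)
    (hini : ∀ ζ : I, #{j // j < ζ} ≤ k ζ) (hcof : ∀ ζ : I, #{j // j < ζ} < κ.ord.cof)
    (hQ : ∀ j, #(I → P j) ≤ K j)
    (hR₀ : #R₀ ≤ ℵ₀) (hRt₀ : ∀ p ∈ R₀, t ≤ o p.2)
    (h0 : ∀ p ∈ R₀, TG (A ∩ p.1) (ω ^ o p.2)) :
    ∃ h : I → St V L I W, ∀ ζ, Good f o t A R₀ k K P ζ h (h ζ) := by
  classical
  have hlt : ∀ j, K j < κ := fun j => (Order.le_succ _).trans_lt (hKκ j)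
  have hN : Nonempty (St V L I W) ∨ IsEmpty I := by
    by_cases hI : Nonempty I
    · obtain ⟨i⟩ := hI
      have h1 : Nonempty (P i) := by
        rw [← Cardinal.mk_ne_zero_iff]
        exact (zero_le.trans_lt (hP i)).ne'
      obtain ⟨w⟩ := h1
      exact Or.inl ⟨⟨∅, fun _ _ => w.1, fun _ => w.1, ∅⟩⟩
    · exact Or.inr (not_nonempty_iff.1 hI)
  rcases hN with hN | hN
  · obtain ⟨N, hN'⟩ := exists_rec' (W := I) (Y := St V L I W)
      (fun ζ h y => (∀ d < ζ, Good f o t A R₀ k K P d h (h d)) →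
        Good f o t A R₀ k K P ζ h y)
      (by
        intro ζ h
        by_cases hG : ∀ d < ζ, Good f o t A R₀ k K P d h (h d)
        · obtain ⟨y, hy⟩ := exists_stage hκ0 hf ht ho hP hk0 hkK hKκ hmono hini hQ hR₀ hRt₀ h0 hG
            (iUnion_lt_of_cof hκ0.le (hcof ζ) ((hini ζ).trans_lt ((hkK ζ).trans_lt (hlt ζ))) _
              fun j => ((hG j.1 j.2).card).trans_lt (hlt j.1))
          exact ⟨y, fun _ => hy⟩
        · exact ⟨Classical.arbitrary _, fun h => absurd h hG⟩)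
      (by
        intro ζ h h' y hh hy hG
        refine Good.congr hh (hy fun d hd => ?_)
        rw [hh d hd]
        exact Good.congr (fun d' hd' => (hh d' (hd'.trans hd)).symm) (hG d hd))
    refine ⟨N, fun ζ => ?_⟩
    induction ζ using WellFoundedLT.induction with
    | ind ζ IH => exact hN' ζ IH
  · exact ⟨fun i => (hN.false i).elim, fun i => (hN.false i).elim⟩

end

variable {V : Type} [LinearOrder V] [WellFoundedLT V] [Nonempty V]

theorem exists_free_pow {κ : Cardinal.{0}} (hκ0 : ℵ₀ < κ) (hpow : ∀ μ < κ, μ ^ κ.ord.cof < κ)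
    {f : V → Finset V} (hf : Chn f) {δ : Ordinal.{0}} (hδ : δ.card ≤ κ) {A : Set V}
    (hA : TG A (κ.ord * δ)) :
    ∃ X : Set V, X ⊆ A ∧ (∀ x ∈ X, ∀ y ∈ X, x ≠ y → y ∉ f x) ∧ TG X (κ.ord * δ) := by
  classical
  have hreg := not_regular_of_pow hκ0 hpow
  have hθ0 : ℵ₀ ≤ κ.ord.cof := aleph0_le_cof' hκ0
  obtain ⟨t, ht⟩ := exists_exp hκ0.le
  obtain ⟨k, hkm, hkθ, hkκ, hkc⟩ := exists_seq2 hκ0 hreg
  have hk0 : ∀ i, ℵ₀ ≤ k i := fun i => hθ0.trans (hkθ i)
  let I := κ.ord.cof.ord.ToType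
  have hIc : #I = κ.ord.cof := by rw [Cardinal.mk_toType, Cardinal.card_ord]
  have hIne : Nonempty I := by
    rw [← Cardinal.mk_ne_zero_iff, hIc]
    exact (aleph0_pos.trans_le hθ0).ne'
  have hnomax : ∀ i : I, ∃ j, i < j := by
    intro i
    by_contra hcon
    push Not at hcon
    have h1 : #I ≤ #(Iio i ∪ {i} : Set I) := by
      rw [← Cardinal.mk_univ]
      refine Cardinal.mk_le_mk_of_subset ?_
      intro j _
      rcases lt_or_eq_of_le (hcon j) with h | h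
      · exact Or.inl h
      · exact Or.inr h
    refine absurd (h1.trans_lt ?_) (lt_irrefl _)
    rw [hIc]
    refine (Cardinal.mk_union_le _ _).trans_lt (Cardinal.add_lt_of_lt hθ0
      (Cardinal.mk_Iio_toType_ord_lt i) ?_)
    rw [Cardinal.mk_singleton]
    exact Cardinal.one_lt_aleph0.trans_le hθ0
  -- colours
  let W := κ.ord.ToType
  have hWc : #W = κ := by rw [Cardinal.mk_toType, Cardinal.card_ord]
  have hPex : ∀ i : I, ∃ p : Set W, #p = Order.succ (k i) := fun i =>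
    Cardinal.le_mk_iff_exists_set.1
      (by rw [hWc]; exact (succ_lt_of_sing hreg (hk0 i) (hkκ i)).le)
  choose P hPc using hPex
  let K : I → Cardinal.{0} := fun i => Order.succ (k i) ^ κ.ord.cof
  have hKκ' : ∀ i, K i < κ := fun i => hpow _ (succ_lt_of_sing hreg (hk0 i) (hkκ i))
  have hkK : ∀ i, k i ≤ K i := by
    intro i
    refine (Order.le_succ (k i)).trans ?_
    calc Order.succ (k i) = Order.succ (k i) ^ (1 : Cardinal.{0}) := (Cardinal.power_one _).symm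
      _ ≤ Order.succ (k i) ^ κ.ord.cof :=
        Cardinal.power_le_power_left (Order.succ_ne_bot _) (Cardinal.one_le_aleph0.trans hθ0)
  have hKκ : ∀ i, Order.succ (K i) < κ := fun i =>
    succ_lt_of_sing hreg ((hk0 i).trans (hkK i)) (hKκ' i)
  have hcof : ∀ ζ : I, #{j // j < ζ} < κ.ord.cof := fun ζ => Cardinal.mk_Iio_toType_ord_lt ζ
  -- exponents
  set S : Ordinal.{0} := κ.ord * δ with hS
  have hScard : S.card ≤ κ := by
    rw [hS, Ordinal.card_mul, Cardinal.card_ord]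
    exact Cardinal.mul_le_of_le hκ0.le le_rfl hδ
  let L := (Order.succ S).ToType
  let o : L → Ordinal.{0} := fun l => (Ordinal.ToType.mk.symm l).1
  have hoS : ∀ l, o l ≤ S := fun l => Order.lt_succ_iff.1 (Ordinal.ToType.mk.symm l).2
  have hoc : ∀ l, (o l).card ≤ κ := fun l => (Ordinal.card_le_card (hoS l)).trans hScard
  have hol : ∀ b ≤ S, ∃ l, o l = b := by
    intro b hb
    refine ⟨Ordinal.ToType.mk ⟨b, Order.lt_succ_iff.2 hb⟩, ?_⟩
    simp only [o, OrderIso.symm_apply_apply]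
  have ho : ∀ l b, b ≤ o l → ∃ l', o l' = b := fun l b hb => hol b (hb.trans (hoS l))
  have hdvd : (ω : Ordinal.{0}) ^ t ∣ S := by
    rw [ht, hS]
    exact Dvd.intro δ rfl
  obtain ⟨Pf, hPf, B, s, hst, hsS, hBA, hBT, hBX⟩ := rt_all t S hdvd V A hA
  choose l hl using fun p => hol (s p) (hsS p)
  let R₀ : Set (Set V × L) := Set.range fun p => (B p, l p)
  have hR₀ : #R₀ ≤ ℵ₀ := by
    have : (Set.range fun p => (B p, l p)).Finite := Set.finite_range _
    exact this.lt_aleph0.le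
  have hRt₀ : ∀ p ∈ R₀, t ≤ o p.2 := by
    rintro _ ⟨p, rfl⟩
    simp only
    rw [hl]
    exact hst p
  have h0 : ∀ p ∈ R₀, TG (A ∩ p.1) (ω ^ o p.2) := by
    rintro _ ⟨p, rfl⟩
    simp only
    rw [hl]
    exact (hBT p).mono fun v hv => ⟨hBA p hv, hv⟩
  obtain ⟨h, hG⟩ := exists_run (V := V) (L := L) (I := I) (W := W) (f := f) (o := o) (t := t)
    (A := A) (R₀ := R₀) (k := k) (K := K) (P := P) hκ0 hf ht ho
    (fun j => by rw [hPc]; exact Order.lt_succ _) hk0 hkK hKκ hkm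
    (fun ζ => (hcof ζ).le.trans (hkθ ζ)) hcof
    (fun j => by rw [Cardinal.mk_arrow, Cardinal.lift_id, Cardinal.lift_id, hPc, hIc])
    hR₀ hRt₀ h0
  -- the result
  let X : Set V := {x | ∃ j, x ∈ (h j).X ∧ ∀ i, j < i → (h j).col x i = (h i).g j}
  have hRm : ∀ i j, i < j → (h i).R ⊆ (h j).R := fun i j hij p hp =>
    (hG j).Rsub (Or.inr (Set.mem_iUnion.2 ⟨⟨i, hij⟩, hp⟩))
  have hcard : ∀ i j, i < j → ∀ p ∈ (h i).R, o p.2 = t → k j ≤ #(X ∩ p.1 : Set V) := by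
    intro i j hij p hp hpt
    refine (hkK j).trans (((hG j).pts p (Or.inr (Set.mem_iUnion.2 ⟨⟨i, hij⟩, hp⟩)) hpt
      (fun i' => (h i').g j) fun i' => (hG i').gP j).trans (Cardinal.mk_le_mk_of_subset ?_))
    rintro x ⟨hx1, hx2, hx3⟩
    exact ⟨⟨j, hx1, fun i' _ => congrFun hx3 i'⟩, hx2⟩
  have hfin : ∀ (b : Ordinal.{0}) (i : I), ∀ p ∈ (h i).R, o p.2 = b →
      TG (X ∩ p.1) (ω ^ b) := by
    intro b
    induction b using WellFoundedLT.induction with
    | ind b IH =>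
      intro i p hp hb
      have htb : t ≤ b := by
        rw [← hb]
        exact (hG i).Rt p hp
      rcases htb.eq_or_lt with h' | h'
      · rw [← h', ht, tg_card]
        by_contra hcon
        rw [not_le] at hcon
        have h1 : max ℵ₀ #(X ∩ p.1 : Set V) < κ := max_lt hκ0 hcon
        obtain ⟨m, hm⟩ := hkc _ (succ_lt_of_sing hreg (le_max_left _ _) h1)
        obtain ⟨j, hj⟩ := hnomax (max i m)
        have h2 := hcard i j ((le_max_left _ _).trans_lt hj) p hp (hb.trans h'.symm)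
        have h4 : Order.succ (max ℵ₀ #(X ∩ p.1 : Set V)) ≤ max ℵ₀ #(X ∩ p.1 : Set V) :=
          (hm.trans (hkm ((le_max_right i m).trans hj.le))).trans (h2.trans (le_max_right _ _))
        exact absurd h4 (not_le.2 (Order.lt_succ _))
      · obtain ⟨μ, hμ, hE⟩ := exists_expd (V := V) hreg hκ0 h' (hb ▸ hoc p.2)
        obtain ⟨m, hm⟩ := hkc μ hμ
        obtain ⟨j, hj⟩ := hnomax (max i m)
        obtain ⟨ι, q, hq, hqo, hqY⟩ := (hG j).exp p
          (Or.inr (Set.mem_iUnion.2 ⟨⟨i, (le_max_left _ _).trans_lt hj⟩, hp⟩))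
          (hb ▸ hE.mono (hm.trans (hkm ((le_max_right i m).trans hj.le))))
        rw [← hb]
        refine hqY _ fun i' => ?_
        exact IH _ (hb ▸ hqo i') j (q i') (hq i') rfl
  refine ⟨X, ?_, ?_, ?_⟩
  · rintro x ⟨j, hx, -⟩
    exact ((hG j).sub hx).1
  · rintro x ⟨j, hx, hxs⟩ y ⟨j', hy, hys⟩ hne
    have key : ∀ (j j' : I) (x y : V), j < j' → x ∈ (h j).X →
        (∀ i, j < i → (h j).col x i = (h i).g j) → y ∈ (h j').X →
        x ∉ f y ∧ y ∉ f x := by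
      intro j j' x y hjj hx hxs hy
      obtain ⟨j'', hj''⟩ := hnomax j'
      exact (unrel (hG j') hjj hj'' ⟨hx, fun i h1 _ => hxs i h1⟩ hy).2
    rcases lt_trichotomy j j' with hlt | rfl | hgt
    · exact (key j j' x y hlt hx hxs hy).2
    · exact (hG j).free x hx y hy hne
    · exact (key j' j y x hgt hy hys hx).1
  · refine (hBX X fun p => ?_).mono Set.inter_subset_left
    obtain ⟨i⟩ := hIne
    exact hfin (s p) i (B p, l p) ((hG i).Rsub (Or.inl ⟨p, rfl⟩)) (hl p)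

end Pool.Agent.CW
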