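import Mathlib
import Pool.Agent.Lib_helper80.CV.Pi
import Pool.Agent.Lib_helper80.CW.Free2

/-!
# CW (MP_931ca8_lc): harmless levels (after helper68's `pi_ext'`)
-/

set_option autoImplicit false
set_option linter.unusedSectionVars false
set_option linter.deprecated false

open Cardinal Ordinal Set

namespace Pool.Agent.CW

open Pool.Agent.H68.OG Pool.Agent.CV

/-- Every system of ancestors on a set of type `κ * δ`, `|δ| ≤ κ`, has a free set of the same
type. -/
def FP (κ : Cardinal.{0}) : Prop :=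
  ∀ (V : Type) [LinearOrder V] [WellFoundedLT V] [Nonempty V] (f : V → Finset V), Chn f →
    ∀ δ : Ordinal.{0}, δ.card ≤ κ → ∀ A : Set V, TG A (κ.ord * δ) →
      ∃ X : Set V, X ⊆ A ∧ (∀ x ∈ X, ∀ y ∈ X, x ≠ y → y ∉ f x) ∧ TG X (κ.ord * δ)

theorem fp_cof {κ : Cardinal.{0}} (hκ0 : ℵ₀ < κ) (hcof : κ.ord.cof = ℵ₀) : FP κ :=
  fun _ _ _ _ _ hf _ hδ _ hA => exists_free_cof hκ0 hcof hf hδ hA

theorem fp_pow {κ : Cardinal.{0}} (hκ0 : ℵ₀ < κ) (hpow : ∀ μ < κ, μ ^ κ.ord.cof < κ) : FP κ :=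
  fun _ _ _ _ _ hf _ hδ _ hA => exists_free_pow hκ0 hpow hf hδ hA

theorem pi_mul_fp {κ : Cardinal.{0}} (hκ0 : ℵ₀ < κ) (hfp : FP κ) {δ : Ordinal.{0}}
    (hδ : δ.card ≤ κ) : PI (κ.ord * δ) := by
  classical
  rcases eq_or_ne δ 0 with rfl | hδ0
  · rw [mul_zero]; exact pi_zero
  intro G
  by_cases hR : Ranked G Set.univ
  · right
    have hN : Nonempty (κ.ord * δ).ToType :=
      Ordinal.nonempty_toType_iff.2 (mul_ne_zero (zero_lt_one.trans (one_lt_ord' hκ0.le)).ne' hδ0)
    obtain ⟨out, hfin, -, hchain, hadj, -⟩ := hR.tree G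
    obtain ⟨X, -, hXf, hXT⟩ := hfp _
      (fun v => (hfin v (Set.mem_univ v)).toFinset) (by
        intro v x hx y hy
        rcases hchain v (Set.mem_univ v) x (by simpa using hx) y (by simpa using hy) with
          h | h | h
        · exact Or.inl h
        · exact Or.inr (Or.inl (by simpa using h))
        · exact Or.inr (Or.inr (by simpa using h))) _ hδ Set.univ
      (tg_iff.2 (typ_univ _).ge)
    refine ⟨X, ?_, typ_eq_of_tg hXT⟩
    intro x hx y hy hxy
    have hne : x ≠ y := hxy.ne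
    rcases hadj x (Set.mem_univ x) y (Set.mem_univ y) hxy with h | h
    · exact hXf y hy x hx hne.symm (by simpa using h)
    · exact hXf x hx y hy hne (by simpa using h)
  · left
    exact exists_path G hR

theorem pi_ext_fp {κ : Cardinal.{0}} (hκ1 : ℵ₀ < κ) (hfp : FP κ)
    (δ η : Ordinal.{0}) (hδ : δ.card ≤ κ) (hη : ω * η < κ.ord)
    (hη0 : η ≠ 0) (h : PI (ω * η)) : PI (κ.ord * δ + ω * η) := by
  classical
  intro G
  by_cases hR : Ranked G Set.univ
  · right
    have hκ0 : ℵ₀ ≤ κ := hκ1.le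
    have hε0 : ω * η ≠ 0 := mul_ne_zero Ordinal.omega0_ne_zero hη0
    have hNε : Nonempty (ω * η).ToType := Ordinal.nonempty_toType_iff.2 hε0
    have hN : Nonempty (κ.ord * δ + ω * η).ToType := by
      refine Ordinal.nonempty_toType_iff.2 ?_
      intro h0
      have : ω * η ≤ κ.ord * δ + ω * η := le_add_self
      rw [h0] at this
      exact hε0 (le_antisymm this zero_le)
    obtain ⟨out, hfin, -, hchain, hadj, hnopath⟩ := hR.tree G
    have htop : TG (Set.univ : Set (κ.ord * δ + ω * η).ToType) (κ.ord * δ + ω * η) :=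
      tg_iff.2 (typ_univ _).ge
    obtain ⟨A₁, A₂, -, -, hA₁, hA₂, hlt12⟩ := htop.split
    obtain ⟨g₂, hg₂, hm₂⟩ := hA₂
    let e := (Ordinal.ToType.mk (o := ω * η)).symm
    have hmono : ∀ x y : (ω * η).ToType, x < y → g₂ (e x).1 < g₂ (e y).1 := fun x y hxy =>
      hm₂ _ _ (e.lt_iff_lt.2 hxy) (e y).2
    have hinj : ∀ x y : (ω * η).ToType, g₂ (e x).1 = g₂ (e y).1 → x = y := by
      intro x y hxy
      rcases lt_trichotomy x y with h1 | h1 | h1
      · exact absurd hxy (hmono x y h1).ne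
      · exact h1
      · exact absurd hxy (hmono y x h1).ne'
    let H : SimpleGraph (ω * η).ToType :=
      { Adj := fun x y => x ≠ y ∧
          (g₂ (e x).1 ∈ out (g₂ (e y).1) ∨ g₂ (e y).1 ∈ out (g₂ (e x).1))
        symm := ⟨fun x y hxy => ⟨hxy.1.symm, hxy.2.symm⟩⟩
        loopless := ⟨fun x hx => hx.1 rfl⟩ }
    rcases h H with ⟨p, hp, hpadj⟩ | ⟨S', hS', hSt⟩
    · exfalso
      refine hnopath (fun n => g₂ (e (p n)).1) ?_ (fun n => Set.mem_univ _) fun n => (hpadj n).2
      intro n m hnm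
      exact hp (hinj _ _ hnm)
    obtain ⟨g', hg', hm'⟩ := tg_of_le_typ (le_of_eq hSt.symm)
    set S : Set (κ.ord * δ + ω * η).ToType := {v | ∃ x ∈ S', v = g₂ (e x).1} with hSdef
    have hSA : S ⊆ A₂ := by
      rintro _ ⟨x, -, rfl⟩
      exact hg₂ _ (e x).2
    have hST : TG S (ω * η) :=
      ⟨fun x => g₂ (e (g' x)).1, fun x hx => ⟨g' x, hg' x hx, rfl⟩,
        fun x y hxy hy => hmono _ _ (hm' x y hxy hy)⟩
    have hanti : ∀ x ∈ S, ∀ y ∈ S, x ≠ y → x ∉ out y := by
      rintro _ ⟨x, hx, rfl⟩ _ ⟨y, hy, rfl⟩ hne hout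
      refine hS' x hx y hy ⟨?_, Or.inl hout⟩
      rintro rfl
      exact hne rfl
    have hScard : #S < κ := by
      have h1 : S ⊆ Set.range (fun x : (ω * η).ToType => g₂ (e x).1) := by
        rintro _ ⟨x, -, rfl⟩
        exact ⟨x, rfl⟩
      refine lt_of_le_of_lt ((Cardinal.mk_le_mk_of_subset h1).trans Cardinal.mk_range_le) ?_
      rw [Cardinal.mk_toType]
      exact Cardinal.lt_ord.1 hη
    obtain ⟨T, hTS, hTT, hTd⟩ := hST.split_omega
    let D : ℕ → Set (κ.ord * δ + ω * η).ToType := fun r => {v | ∀ u ∈ out v, u ∉ T r}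
    have hD : ∀ v ∈ A₁, ∀ r s, r ≠ s → v ∈ D r ∨ v ∈ D s := by
      intro v _ r s hrs
      by_contra hcon
      rw [not_or] at hcon
      simp only [D, Set.mem_ofPred_eq, not_forall, not_not] at hcon
      obtain ⟨⟨x, hx, hxr⟩, ⟨y, hy, hys⟩⟩ := hcon
      have hne : x ≠ y := by
        rintro rfl
        exact hTd r s hrs x hxr hys
      rcases hchain v (Set.mem_univ v) x hx y hy with h1 | h1 | h1
      · exact hne h1
      · exact hanti x (hTS r hxr) y (hTS s hys) hne h1
      · exact hanti y (hTS s hys) x (hTS r hxr) hne.symm h1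
    have hbad := fb_all (κ.ord * δ) _ A₁ D hA₁ hD
    obtain ⟨r, hr⟩ := hbad.infinite_compl.nonempty
    simp only [Set.mem_compl_iff, Set.mem_ofPred_eq, not_not] at hr
    have hTc : #(T r) < κ := lt_of_le_of_lt (Cardinal.mk_le_mk_of_subset (hTS r)) hScard
    have hRc := mk_biUnion_finite_lt hκ1 (T r) hTc out fun v => hfin v (Set.mem_univ v)
    have hA₁' := TG.remove' hκ0 hRc δ _ hr
    obtain ⟨X, hXA, hXf, hXT⟩ := hfp _
      (fun v => (hfin v (Set.mem_univ v)).toFinset) (by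
        intro v x hx y hy
        rcases hchain v (Set.mem_univ v) x (by simpa using hx) y (by simpa using hy) with
          h | h | h
        · exact Or.inl h
        · exact Or.inr (Or.inl (by simpa using h))
        · exact Or.inr (Or.inr (by simpa using h))) _ hδ _ hA₁'
    have hfree : ∀ x ∈ X, ∀ y ∈ X, x ≠ y → y ∉ out x := by
      intro x hx y hy hne hout
      exact hXf x hx y hy hne (by simpa using hout)
    refine ⟨X ∪ T r, ?_, ?_⟩
    · have hXT' : ∀ x ∈ X, ∀ y ∈ T r, x ∉ out y ∧ y ∉ out x := by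
        intro x hx y hy
        have h1 := hXA hx
        refine ⟨fun hout => h1.2 ?_, fun hout => h1.1.2 y hout hy⟩
        exact Set.mem_biUnion hy hout
      rintro x hx y hy hxy
      have hne : x ≠ y := hxy.ne
      have h1 := hadj x (Set.mem_univ x) y (Set.mem_univ y) hxy
      rcases hx with hx | hx <;> rcases hy with hy | hy
      · rcases h1 with h1 | h1
        · exact hfree y hy x hx hne.symm h1
        · exact hfree x hx y hy hne h1
      · rcases h1 with h1 | h1
        · exact (hXT' x hx y hy).1 h1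
        · exact (hXT' x hx y hy).2 h1
      · rcases h1 with h1 | h1
        · exact (hXT' y hy x hx).2 h1
        · exact (hXT' y hy x hx).1 h1
      · rcases h1 with h1 | h1
        · exact hanti x (hTS r hx) y (hTS r hy) hne h1
        · exact hanti y (hTS r hy) x (hTS r hx) hne.symm h1
    · refine typ_eq_of_tg (hXT.add (hTT r) ?_)
      intro x hx y hy
      exact hlt12 x (hXA hx).1.1 y (hSA (hTS r hy))
  · left
    exact exists_path G hR

/-- Reduction modulo `κ`. -/
theorem pi_iff_fp {κ : Cardinal.{0}} (hκ0 : ℵ₀ < κ) (hfp : FP κ)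
    (δ ε : Ordinal.{0}) (hδ : δ.card ≤ κ) (hε : ε < κ.ord) (hd : ω ∣ ε) :
    PI (κ.ord * δ + ε) ↔ PI ε := by
  refine ⟨pi_tail, fun h => ?_⟩
  obtain ⟨η, rfl⟩ := hd
  rcases eq_or_ne η 0 with rfl | hη
  · rw [mul_zero, add_zero]
    exact pi_mul_fp hκ0 hfp hδ
  · exact pi_ext_fp hκ0 hfp δ η hδ hε hη h

end Pool.Agent.CW
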