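import Mathlib
import Pool.Agent.Lib_helper80.CW.Pi2
import Pool.Agent.Lib_helper80.CV.Level

/-!
# CW (MP_931ca8_lc): all levels at once
-/

set_option autoImplicit false
set_option linter.unusedSectionVars false
set_option linter.deprecated false

open Cardinal Ordinal Set

namespace Pool.Agent.CW

open Pool.Agent.H68.OG Pool.Agent.CV

/-- Countable cofinality, or `μ ^ cof κ < κ` for all `μ < κ`. -/
def Hl (κ : Cardinal.{0}) : Prop := κ.ord.cof = ℵ₀ ∨ ∀ μ < κ, μ ^ κ.ord.cof < κ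

theorem fp_hl {κ : Cardinal.{0}} (hκ0 : ℵ₀ < κ) (h : Hl κ) : FP κ := by
  rcases h with h | h
  · exact fp_cof hκ0 h
  · exact fp_pow hκ0 h

/-- one harmless level -/
theorem level_hl {κ : Cardinal.{0}} (hκ : ℵ₀ < κ) (hl : Hl κ) {β : Ordinal.{0}}
    (hβ : β < (Order.succ κ).ord) (hd : ω ∣ β) (h : PI (β % κ.ord)) : PI β := by
  have hκ0 : κ.ord ≠ 0 := (zero_lt_one.trans (one_lt_ord' hκ.le)).ne'
  rw [← Ordinal.div_add_mod β κ.ord]
  exact (pi_iff_fp hκ (fp_hl hκ hl) _ _ (card_div_le hκ hβ) (Ordinal.mod_lt β hκ0)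
    (dvd_mod hκ hd)).2 h

/-- small levels at the other cardinals suffice -/
theorem pi_small2 (α : Ordinal.{0}) (hd : ω ∣ α)
    (h : ∀ κ : Cardinal.{0}, ℵ₀ < κ → ¬ Hl κ → ∃ ν : Cardinal.{0}, ℵ₀ ≤ ν ∧ ν < κ ∧
      α % (Order.succ κ).ord < κ.ord ^ (ν.ord + 2)) : PI α := by
  refine pi_levels_of (fun κ β => ¬ Hl κ → ∃ ν : Cardinal.{0}, ℵ₀ ≤ ν ∧ ν < κ ∧
      β < κ.ord ^ (ν.ord + 2)) ?_ ?_ α hd h
  · intro κ hκ β hβ hdβ hQ hP
    by_cases hl : Hl κ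
    · exact level_hl hκ hl hβ hdβ hP
    · obtain ⟨ν, hν, hνκ, hlt⟩ := hQ hl
      exact level_small hν hνκ hlt hdβ hP
  · exact fun κ hκ β hβ _ => small_of_lt hκ hβ

/-- the omission property at the regular cardinals and no part at the other singular cardinals
suffice -/
theorem pi_levels2 (α : Ordinal.{0}) (hd : ω ∣ α)
    (hs : ∀ κ : Cardinal.{0}, ℵ₀ < κ → ¬ κ.IsRegular → ¬ Hl κ →
      α % (Order.succ κ).ord < κ.ord)
    (hr : ∀ κ : Cardinal.{0}, κ.IsRegular → ℵ₀ < κ →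
      CQ.Part κ (α % (Order.succ κ).ord / κ.ord)) : PI α := by
  refine pi_levels_of (fun κ β => (¬ κ.IsRegular → ¬ Hl κ → β < κ.ord) ∧
    (κ.IsRegular → CQ.Part κ (β / κ.ord))) ?_ ?_ α hd
    fun κ hκ => ⟨hs κ hκ, fun h => hr κ h hκ⟩
  · intro κ hκ β hβ hdβ hQ hP
    by_cases hreg : κ.IsRegular
    · exact level_part hreg hκ hβ (hQ.2 hreg) hdβ hP
    · by_cases hl : Hl κ
      · exact level_hl hκ hl hβ hdβ hP
      · have h1 := hQ.1 hreg hl
        rwa [Ordinal.mod_eq_of_lt h1] at hP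
  · intro κ hκ β hβ
    refine ⟨fun _ _ => hβ, fun h => ?_⟩
    rw [Ordinal.div_eq_zero_of_lt hβ]
    exact CQ.part_zero hκ.le

/-- Under GCH every singular cardinal is of this kind. -/
theorem hl_of_gch (hgch : ∀ κ : Cardinal.{0}, ℵ₀ ≤ κ → (2 : Cardinal.{0}) ^ κ = Order.succ κ)
    {κ : Cardinal.{0}} (hκ0 : ℵ₀ < κ) (hreg : ¬ κ.IsRegular) : Hl κ := by
  refine Or.inr fun μ hμ => ?_
  have hθ0 := aleph0_le_cof' hκ0
  have hθ := cof_lt_self hκ0 hreg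
  set x := max μ κ.ord.cof with hx
  have hx0 : ℵ₀ ≤ x := hθ0.trans (le_max_right _ _)
  have hxκ : x < κ := max_lt hμ hθ
  calc μ ^ κ.ord.cof ≤ x ^ κ.ord.cof := Cardinal.power_le_power_right (le_max_left _ _)
    _ ≤ x ^ x := Cardinal.power_le_power_left (aleph0_pos.trans_le hx0).ne' (le_max_right _ _)
    _ = 2 ^ x := Cardinal.power_self_eq hx0
    _ = Order.succ x := hgch x hx0
    _ < κ := succ_lt_of_sing hreg hx0 hxκ

/-- Under GCH the omission property at the regular cardinals decides everything. -/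
theorem pi_gch (hgch : ∀ κ : Cardinal.{0}, ℵ₀ ≤ κ → (2 : Cardinal.{0}) ^ κ = Order.succ κ)
    (α : Ordinal.{0}) (hd : ω ∣ α) :
    PI α ↔ ∀ κ : Cardinal.{0}, κ.IsRegular → ℵ₀ < κ →
      CQ.Part κ (α % (Order.succ κ).ord / κ.ord) := by
  refine ⟨fun h κ hκ hκ0 => CQ.part_of_pi hκ hκ0 (fun μ hμ => ?_) h, fun h =>
    pi_levels2 α hd (fun κ hκ hreg hn => absurd (hl_of_gch hgch hκ hreg) hn) h⟩
  rcases lt_or_ge μ ℵ₀ with h1 | h1
  · refine le_trans ?_ hκ0.le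
    exact (Cardinal.power_lt_aleph0 (Cardinal.ofNat_lt_aleph0 (n := 2)) h1).le
  · rw [hgch μ h1]
    exact Order.succ_le_of_lt hμ

end Pool.Agent.CW
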